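import Mathlib

/-!
# The weighted Dirichlet seminorm of real polynomials on `[0, T]`

`dform T p q = 5 T ∫ t in 0..T, p'(t) q'(t) / (9 - 8 t / T)`, `dn T p = sqrt (dform T p p)`.
The same names as in `TDN.Basic` (weight `1`, no factor `5`).
-/

set_option autoImplicit false

namespace Pool.Agent.TDW

open Polynomial MeasureTheory intervalIntegral

/-- the weight, `1 / (9 - 8 s / T)` on `[0, T]` -/
noncomputable def wt (T s : ℝ) : ℝ := (1 + 8 * |1 - s / T|)⁻¹

lemma wt_pos (T s : ℝ) : 0 < wt T s := by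
  unfold wt
  positivity

lemma wt_cont (T : ℝ) : Continuous (wt T) := by
  unfold wt
  apply Continuous.inv₀
  · fun_prop
  · intro s
    positivity

lemma wt_eq {T s : ℝ} (hT : 0 < T) (hs : s ≤ T) : wt T s = (9 - 8 * (s / T))⁻¹ := by
  unfold wt
  have h : s / T ≤ 1 := by
    rw [div_le_one hT]
    exact hs
  rw [abs_of_nonneg (by linarith)]
  congr 1
  ring

lemma wt_top {T : ℝ} (hT : 0 < T) : wt T T = 1 := by
  rw [wt_eq hT le_rfl, div_self hT.ne']
  norm_num

/-- the bilinear form `5 T ∫ w p' q'` -/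
noncomputable def dform (T : ℝ) (p q : ℝ[X]) : ℝ :=
  5 * T * ∫ t in (0 : ℝ)..T, wt T t * ((derivative p).eval t * (derivative q).eval t)

/-- the seminorm -/
noncomputable def dn (T : ℝ) (p : ℝ[X]) : ℝ := Real.sqrt (dform T p p)

/-- `theta T t ^ 2 = (h + 4 h ^ 2) / 5`, `h = (T - t) / T` -/
noncomputable def theta (T t : ℝ) : ℝ :=
  Real.sqrt (((T - t) / T + 4 * ((T - t) / T) ^ 2) / 5)

lemma int_poly (p : ℝ[X]) (a b : ℝ) : IntervalIntegrable (fun t => p.eval t) volume a b :=
  p.continuous.intervalIntegrable a b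

lemma int_mul (p q : ℝ[X]) (a b : ℝ) :
    IntervalIntegrable (fun t => p.eval t * q.eval t) volume a b :=
  (p.continuous.mul q.continuous).intervalIntegrable a b

lemma int_wmul (T : ℝ) (p q : ℝ[X]) (a b : ℝ) :
    IntervalIntegrable (fun t => wt T t * (p.eval t * q.eval t)) volume a b :=
  ((wt_cont T).mul (p.continuous.mul q.continuous)).intervalIntegrable a b

lemma dform_comm (T : ℝ) (p q : ℝ[X]) : dform T p q = dform T q p := by
  unfold dform
  simp only [mul_comm]

lemma dform_add_left (T : ℝ) (p q r : ℝ[X]) :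
    dform T (p + q) r = dform T p r + dform T q r := by
  unfold dform
  rw [← mul_add, ← intervalIntegral.integral_add (int_wmul _ _ _ _ _) (int_wmul _ _ _ _ _)]
  congr 1
  apply intervalIntegral.integral_congr
  intro t _
  simp only [derivative_add, eval_add]
  ring

lemma dform_add_right (T : ℝ) (p q r : ℝ[X]) :
    dform T p (q + r) = dform T p q + dform T p r := by
  rw [dform_comm, dform_add_left, dform_comm T q p, dform_comm T r p]

lemma dform_smul_left (T c : ℝ) (p q : ℝ[X]) : dform T (C c * p) q = c * dform T p q := by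
  unfold dform
  have h : (∫ t in (0 : ℝ)..T, wt T t * ((derivative (C c * p)).eval t * (derivative q).eval t))
      = c * ∫ t in (0 : ℝ)..T, wt T t * ((derivative p).eval t * (derivative q).eval t) := by
    rw [← intervalIntegral.integral_const_mul]
    apply intervalIntegral.integral_congr
    intro t _
    simp only [derivative_mul, derivative_C, zero_mul, zero_add, eval_mul, eval_C]
    ring
  rw [h]
  ring

lemma dform_smul_right (T c : ℝ) (p q : ℝ[X]) : dform T p (C c * q) = c * dform T p q := by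
  rw [dform_comm, dform_smul_left, dform_comm]

lemma dform_neg_left (T : ℝ) (p q : ℝ[X]) : dform T (-p) q = -dform T p q := by
  have : -p = C (-1) * p := by simp
  rw [this, dform_smul_left]
  ring

lemma dform_neg_right (T : ℝ) (p q : ℝ[X]) : dform T p (-q) = -dform T p q := by
  rw [dform_comm, dform_neg_left, dform_comm]

lemma dform_sub_left (T : ℝ) (p q r : ℝ[X]) :
    dform T (p - q) r = dform T p r - dform T q r := by
  rw [sub_eq_add_neg, dform_add_left, dform_neg_left]
  ring

lemma dform_sub_right (T : ℝ) (p q r : ℝ[X]) :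
    dform T p (q - r) = dform T p q - dform T p r := by
  rw [sub_eq_add_neg, dform_add_right, dform_neg_right]
  ring

lemma dform_self_nonneg (T : ℝ) (hT : 0 ≤ T) (p : ℝ[X]) : 0 ≤ dform T p p := by
  unfold dform
  apply mul_nonneg (by linarith)
  apply intervalIntegral.integral_nonneg hT
  intro t _
  exact mul_nonneg (wt_pos T t).le (mul_self_nonneg _)

lemma dn_nonneg (T : ℝ) (p : ℝ[X]) : 0 ≤ dn T p := Real.sqrt_nonneg _

lemma dn_sq (T : ℝ) (hT : 0 ≤ T) (p : ℝ[X]) : dn T p ^ 2 = dform T p p :=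
  Real.sq_sqrt (dform_self_nonneg T hT p)

lemma dn_C (T c : ℝ) : dn T (C c) = 0 := by
  unfold dn dform
  simp

lemma dn_zero (T : ℝ) : dn T 0 = 0 := by
  have := dn_C T 0
  simpa using this

lemma dn_one (T : ℝ) : dn T 1 = 0 := by
  have := dn_C T 1
  simpa using this

lemma dform_C_left (T c : ℝ) (q : ℝ[X]) : dform T (C c) q = 0 := by
  unfold dform
  simp

lemma dform_C_right (T c : ℝ) (q : ℝ[X]) : dform T q (C c) = 0 := by
  unfold dform
  simp

lemma dn_add_C (T c : ℝ) (p : ℝ[X]) : dn T (p + C c) = dn T p := by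
  unfold dn
  rw [dform_add_left, dform_add_right, dform_C_left, dform_C_right]
  simp

lemma dn_C_add (T c : ℝ) (p : ℝ[X]) : dn T (C c + p) = dn T p := by
  rw [add_comm, dn_add_C]

lemma dn_neg (T : ℝ) (p : ℝ[X]) : dn T (-p) = dn T p := by
  unfold dn
  rw [dform_neg_left, dform_neg_right, neg_neg]

lemma dn_C_sub (T c : ℝ) (p : ℝ[X]) : dn T (C c - p) = dn T p := by
  rw [sub_eq_add_neg, dn_C_add, dn_neg]

lemma dn_one_sub (T : ℝ) (p : ℝ[X]) : dn T (1 - p) = dn T p := by
  have := dn_C_sub T 1 p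
  simpa using this

lemma dn_sub_comm (T : ℝ) (p q : ℝ[X]) : dn T (p - q) = dn T (q - p) := by
  rw [← dn_neg, neg_sub]

lemma dn_smul (T : ℝ) (c : ℝ) (p : ℝ[X]) : dn T (C c * p) = |c| * dn T p := by
  unfold dn
  rw [dform_smul_left, dform_smul_right, ← mul_assoc, ← sq, Real.sqrt_mul (sq_nonneg c),
    Real.sqrt_sq_eq_abs]

/-- parallelogram law -/
lemma dn_parallelogram (T : ℝ) (hT : 0 ≤ T) (p q : ℝ[X]) :
    dn T (p + q) ^ 2 + dn T (p - q) ^ 2 = 2 * dn T p ^ 2 + 2 * dn T q ^ 2 := by
  rw [dn_sq T hT, dn_sq T hT, dn_sq T hT, dn_sq T hT, dform_add_left, dform_add_right,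
    dform_add_right, dform_sub_left, dform_sub_right, dform_sub_right]
  ring

lemma dn_add_sq (T : ℝ) (hT : 0 ≤ T) (p q : ℝ[X]) :
    dn T (p + q) ^ 2 = dn T p ^ 2 + 2 * dform T p q + dn T q ^ 2 := by
  rw [dn_sq T hT, dn_sq T hT, dn_sq T hT, dform_add_left, dform_add_right,
    dform_add_right, dform_comm T q p]
  ring

lemma dn_sub_sq (T : ℝ) (hT : 0 ≤ T) (p q : ℝ[X]) :
    dn T (p - q) ^ 2 = dn T p ^ 2 - 2 * dform T p q + dn T q ^ 2 := by
  rw [dn_sq T hT, dn_sq T hT, dn_sq T hT, dform_sub_left, dform_sub_right,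
    dform_sub_right, dform_comm T q p]
  ring

/-- Cauchy-Schwarz -/
lemma dform_le (T : ℝ) (hT : 0 ≤ T) (p q : ℝ[X]) : |dform T p q| ≤ dn T p * dn T q := by
  have key : ∀ s : ℝ, 0 ≤ dn T q ^ 2 * (s * s) + 2 * dform T p q * s + dn T p ^ 2 := by
    intro s
    have h := dform_self_nonneg T hT (p + C s * q)
    rw [dform_add_left, dform_add_right, dform_add_right, dform_smul_left, dform_smul_left,
      dform_smul_right, dform_smul_right, dform_comm T q p] at h
    rw [dn_sq T hT, dn_sq T hT]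
    nlinarith
  have hd := discrim_le_zero key
  unfold discrim at hd
  have h2 : dform T p q ^ 2 ≤ (dn T p * dn T q) ^ 2 := by nlinarith
  exact abs_le_of_sq_le_sq h2 (mul_nonneg (dn_nonneg _ _) (dn_nonneg _ _))

lemma dn_add_le (T : ℝ) (hT : 0 ≤ T) (p q : ℝ[X]) : dn T (p + q) ≤ dn T p + dn T q := by
  have h := dn_add_sq T hT p q
  have h2 := (abs_le.1 (dform_le T hT p q)).2
  have h3 : dn T (p + q) ^ 2 ≤ (dn T p + dn T q) ^ 2 := by nlinarith
  have h4 := abs_le_of_sq_le_sq h3 (add_nonneg (dn_nonneg _ _) (dn_nonneg _ _))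
  exact (le_abs_self _).trans h4

end Pool.Agent.TDW
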