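import Pool.Agent.TDW.Point

set_option autoImplicit false

/-!
# Admissible pairs for the creation inequality in the weighted seminorm
-/

namespace Pool.Agent.TDW

/-- the trivial pair -/
theorem cre_one : Cre 1 5 := by
  refine Cre.of (a := 0) (b := 0) (by norm_num) ?_ le_rfl ?_
  · intro x h0 h1
    have h2 : 0 ≤ (1 - x ^ 2) * 8 := by nlinarith
    calc x ^ 3 * (0 + 0 * x) ^ 2 * (9 - 8 * x) = 0 := by ring
      _ ≤ (1 - x ^ 2) * 8 := h2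
      _ = _ := by ring
  · intro x h0 h1
    norm_num

theorem cre_a_p_0 (x : ℝ) (h1 : 0 ≤ x) (h2 : x ≤ 1) :
    x ^ 3 * ((41 / 100) + (-(17 / 100)) * x) ^ 2 * (9 - 8 * x) ≤
      (101 / 100 - x ^ 2) *
      (8 - (2 * (41 / 100) + 3 * (-(17 / 100)) * x) * (9 - 8 * x) -
      8 * x * ((41 / 100) + (-(17 / 100)) * x)) := by
  obtain ⟨s, hs⟩ : ∃ s, s = x - 0 := ⟨_, rfl⟩
  obtain ⟨t, ht⟩ : ∃ t, t = 1 - x := ⟨_, rfl⟩
  have hs0 : 0 ≤ s := by linarith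
  have ht0 : 0 ≤ t := by linarith
  have h : 0 ≤
      3131 / 5000 * t ^ 6 + 117059 / 10000 * s * t ^ 5 + 457693 / 10000 * s ^ 2 * t ^ 4 +
      691593 / 10000 * s ^ 3 * t ^ 3 + 18339 / 400 * s ^ 4 * t ^ 2 +
      111467 / 10000 * s ^ 5 * t + 1 / 10000 * s ^ 6 := by
    positivity
  have e :
      3131 / 5000 * t ^ 6 + 117059 / 10000 * s * t ^ 5 + 457693 / 10000 * s ^ 2 * t ^ 4 +
      691593 / 10000 * s ^ 3 * t ^ 3 + 18339 / 400 * s ^ 4 * t ^ 2 +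
      111467 / 10000 * s ^ 5 * t + 1 / 10000 * s ^ 6 =
      (101 / 100 - x ^ 2) *
      (8 - (2 * (41 / 100) + 3 * (-(17 / 100)) * x) * (9 - 8 * x) -
      8 * x * ((41 / 100) + (-(17 / 100)) * x)) -
      x ^ 3 * ((41 / 100) + (-(17 / 100)) * x) ^ 2 * (9 - 8 * x) := by
    rw [hs, ht]
    ring
  rw [e] at h
  linarith

theorem cre_a_q_0 (x : ℝ) (h1 : 0 ≤ x) (h2 : x ≤ 1) :
    0 ≤
      (8 - (2 * (41 / 100) + 3 * (-(17 / 100)) * x) * (9 - 8 * x) -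
      8 * x * ((41 / 100) + (-(17 / 100)) * x)) := by
  obtain ⟨s, hs⟩ : ∃ s, s = x - 0 := ⟨_, rfl⟩
  obtain ⟨t, ht⟩ : ∃ t, t = 1 - x := ⟨_, rfl⟩
  have hs0 : 0 ≤ s := by linarith
  have ht0 : 0 ≤ t := by linarith
  have h : 0 ≤
      31 / 50 * t ^ 2 + 911 / 100 * s * t + 577 / 100 * s ^ 2 := by
    positivity
  have e :
      31 / 50 * t ^ 2 + 911 / 100 * s * t + 577 / 100 * s ^ 2 =
      (8 - (2 * (41 / 100) + 3 * (-(17 / 100)) * x) * (9 - 8 * x) -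
      8 * x * ((41 / 100) + (-(17 / 100)) * x)) -
      0 := by
    rw [hs, ht]
    ring
  rw [e] at h
  linarith

/-- the pair `(101 / 100, 19 / 5)` -/
theorem cre_a : Cre (101 / 100) (19 / 5) := by
  refine Cre.of (a := (41 / 100)) (b := (-(17 / 100))) (by norm_num) ?_ (by norm_num) ?_
  · intro x h0 h1
    exact cre_a_p_0 x (by linarith) (by linarith)
  · intro x h0 h1
    exact cre_a_q_0 x (by linarith) (by linarith)

theorem cre_b_p_0 (x : ℝ) (h1 : 0 ≤ x) (h2 : x ≤ 1) :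
    x ^ 3 * ((111 / 250) + (-(2 / 25)) * x) ^ 2 * (9 - 8 * x) ≤
      (103 / 100 - x ^ 2) *
      (8 - (2 * (111 / 250) + 3 * (-(2 / 25)) * x) * (9 - 8 * x) -
      8 * x * ((111 / 250) + (-(2 / 25)) * x)) := by
  obtain ⟨s, hs⟩ : ∃ s, s = x - 0 := ⟨_, rfl⟩
  obtain ⟨t, ht⟩ : ∃ t, t = 1 - x := ⟨_, rfl⟩
  have hs0 : 0 ≤ s := by linarith
  have ht0 : 0 ≤ t := by linarith
  have h : 0 ≤
      103 / 12500 * t ^ 6 + 3708 / 625 * s * t ^ 5 + 14107 / 500 * s ^ 2 * t ^ 4 +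
      2887911 / 62500 * s ^ 3 * t ^ 3 + 1001143 / 31250 * s ^ 4 * t ^ 2 +
      504309 / 62500 * s ^ 5 * t + 11 / 15625 * s ^ 6 := by
    positivity
  have e :
      103 / 12500 * t ^ 6 + 3708 / 625 * s * t ^ 5 + 14107 / 500 * s ^ 2 * t ^ 4 +
      2887911 / 62500 * s ^ 3 * t ^ 3 + 1001143 / 31250 * s ^ 4 * t ^ 2 +
      504309 / 62500 * s ^ 5 * t + 11 / 15625 * s ^ 6 =
      (103 / 100 - x ^ 2) *
      (8 - (2 * (111 / 250) + 3 * (-(2 / 25)) * x) * (9 - 8 * x) -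
      8 * x * ((111 / 250) + (-(2 / 25)) * x)) -
      x ^ 3 * ((111 / 250) + (-(2 / 25)) * x) ^ 2 * (9 - 8 * x) := by
    rw [hs, ht]
    ring
  rw [e] at h
  linarith

theorem cre_b_q_0 (x : ℝ) (h1 : 0 ≤ x) (h2 : x ≤ 1) :
    0 ≤
      (8 - (2 * (111 / 250) + 3 * (-(2 / 25)) * x) * (9 - 8 * x) -
      8 * x * ((111 / 250) + (-(2 / 25)) * x)) := by
  obtain ⟨s, hs⟩ : ∃ s, s = x - 0 := ⟨_, rfl⟩
  obtain ⟨t, ht⟩ : ∃ t, t = 1 - x := ⟨_, rfl⟩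
  have hs0 : 0 ≤ s := by linarith
  have ht0 : 0 ≤ t := by linarith
  have h : 0 ≤
      1 / 125 * t ^ 2 + 716 / 125 * s * t + 111 / 25 * s ^ 2 := by
    positivity
  have e :
      1 / 125 * t ^ 2 + 716 / 125 * s * t + 111 / 25 * s ^ 2 =
      (8 - (2 * (111 / 250) + 3 * (-(2 / 25)) * x) * (9 - 8 * x) -
      8 * x * ((111 / 250) + (-(2 / 25)) * x)) -
      0 := by
    rw [hs, ht]
    ring
  rw [e] at h
  linarith

/-- the pair `(103 / 100, 159 / 50)` -/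
theorem cre_b : Cre (103 / 100) (159 / 50) := by
  refine Cre.of (a := (111 / 250)) (b := (-(2 / 25))) (by norm_num) ?_ (by norm_num) ?_
  · intro x h0 h1
    exact cre_b_p_0 x (by linarith) (by linarith)
  · intro x h0 h1
    exact cre_b_q_0 x (by linarith) (by linarith)

theorem cre_c_p_0 (x : ℝ) (h1 : 0 ≤ x) (h2 : x ≤ 1) :
    x ^ 3 * ((111 / 250) + (-(7 / 500)) * x) ^ 2 * (9 - 8 * x) ≤
      (21 / 20 - x ^ 2) *
      (8 - (2 * (111 / 250) + 3 * (-(7 / 500)) * x) * (9 - 8 * x) -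
      8 * x * ((111 / 250) + (-(7 / 500)) * x)) := by
  obtain ⟨s, hs⟩ : ∃ s, s = x - 0 := ⟨_, rfl⟩
  obtain ⟨t, ht⟩ : ∃ t, t = 1 - x := ⟨_, rfl⟩
  have hs0 : 0 ≤ s := by linarith
  have ht0 : 0 ≤ t := by linarith
  have h : 0 ≤
      21 / 2500 * t ^ 6 + 41769 / 10000 * s * t ^ 5 + 205153 / 10000 * s ^ 2 * t ^ 4 +
      4344497 / 125000 * s ^ 3 * t ^ 3 + 3091513 / 125000 * s ^ 4 * t ^ 2 +
      79027 / 12500 * s ^ 5 * t + 1 / 1250 * s ^ 6 := by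
    positivity
  have e :
      21 / 2500 * t ^ 6 + 41769 / 10000 * s * t ^ 5 + 205153 / 10000 * s ^ 2 * t ^ 4 +
      4344497 / 125000 * s ^ 3 * t ^ 3 + 3091513 / 125000 * s ^ 4 * t ^ 2 +
      79027 / 12500 * s ^ 5 * t + 1 / 1250 * s ^ 6 =
      (21 / 20 - x ^ 2) *
      (8 - (2 * (111 / 250) + 3 * (-(7 / 500)) * x) * (9 - 8 * x) -
      8 * x * ((111 / 250) + (-(7 / 500)) * x)) -
      x ^ 3 * ((111 / 250) + (-(7 / 500)) * x) ^ 2 * (9 - 8 * x) := by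
    rw [hs, ht]
    ring
  rw [e] at h
  linarith

theorem cre_c_q_0 (x : ℝ) (h1 : 0 ≤ x) (h2 : x ≤ 1) :
    0 ≤
      (8 - (2 * (111 / 250) + 3 * (-(7 / 500)) * x) * (9 - 8 * x) -
      8 * x * ((111 / 250) + (-(7 / 500)) * x)) := by
  obtain ⟨s, hs⟩ : ∃ s, s = x - 0 := ⟨_, rfl⟩
  obtain ⟨t, ht⟩ : ∃ t, t = 1 - x := ⟨_, rfl⟩
  have hs0 : 0 ≤ s := by linarith
  have ht0 : 0 ≤ t := by linarith
  have h : 0 ≤
      1 / 125 * t ^ 2 + 1973 / 500 * s * t + 1857 / 500 * s ^ 2 := by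
    positivity
  have e :
      1 / 125 * t ^ 2 + 1973 / 500 * s * t + 1857 / 500 * s ^ 2 =
      (8 - (2 * (111 / 250) + 3 * (-(7 / 500)) * x) * (9 - 8 * x) -
      8 * x * ((111 / 250) + (-(7 / 500)) * x)) -
      0 := by
    rw [hs, ht]
    ring
  rw [e] at h
  linarith

/-- the pair `(21 / 20, 57 / 20)` -/
theorem cre_c : Cre (21 / 20) (57 / 20) := by
  refine Cre.of (a := (111 / 250)) (b := (-(7 / 500))) (by norm_num) ?_ (by norm_num) ?_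
  · intro x h0 h1
    exact cre_c_p_0 x (by linarith) (by linarith)
  · intro x h0 h1
    exact cre_c_q_0 x (by linarith) (by linarith)

theorem cre_d_p_0 (x : ℝ) (h1 : 0 ≤ x) (h2 : x ≤ 1) :
    x ^ 3 * ((111 / 250) + (19 / 250) * x) ^ 2 * (9 - 8 * x) ≤
      (11 / 10 - x ^ 2) *
      (8 - (2 * (111 / 250) + 3 * (19 / 250) * x) * (9 - 8 * x) -
      8 * x * ((111 / 250) + (19 / 250) * x)) := by
  obtain ⟨s, hs⟩ : ∃ s, s = x - 0 := ⟨_, rfl⟩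
  obtain ⟨t, ht⟩ : ∃ t, t = 1 - x := ⟨_, rfl⟩
  have hs0 : 0 ≤ s := by linarith
  have ht0 : 0 ≤ t := by linarith
  have h : 0 ≤
      11 / 1250 * t ^ 6 + 4257 / 2500 * s * t ^ 5 + 24279 / 2500 * s ^ 2 * t ^ 4 +
      1170011 / 62500 * s ^ 3 * t ^ 3 + 908789 / 62500 * s ^ 4 * t ^ 2 +
      47423 / 12500 * s ^ 5 * t + 1 / 500 * s ^ 6 := by
    positivity
  have e :
      11 / 1250 * t ^ 6 + 4257 / 2500 * s * t ^ 5 + 24279 / 2500 * s ^ 2 * t ^ 4 +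
      1170011 / 62500 * s ^ 3 * t ^ 3 + 908789 / 62500 * s ^ 4 * t ^ 2 +
      47423 / 12500 * s ^ 5 * t + 1 / 500 * s ^ 6 =
      (11 / 10 - x ^ 2) *
      (8 - (2 * (111 / 250) + 3 * (19 / 250) * x) * (9 - 8 * x) -
      8 * x * ((111 / 250) + (19 / 250) * x)) -
      x ^ 3 * ((111 / 250) + (19 / 250) * x) ^ 2 * (9 - 8 * x) := by
    rw [hs, ht]
    ring
  rw [e] at h
  linarith

theorem cre_d_q_0 (x : ℝ) (h1 : 0 ≤ x) (h2 : x ≤ 1) :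
    0 ≤
      (8 - (2 * (111 / 250) + 3 * (19 / 250) * x) * (9 - 8 * x) -
      8 * x * ((111 / 250) + (19 / 250) * x)) := by
  obtain ⟨s, hs⟩ : ∃ s, s = x - 0 := ⟨_, rfl⟩
  obtain ⟨t, ht⟩ : ∃ t, t = 1 - x := ⟨_, rfl⟩
  have hs0 : 0 ≤ s := by linarith
  have ht0 : 0 ≤ t := by linarith
  have h : 0 ≤
      1 / 125 * t ^ 2 + 379 / 250 * s * t + 681 / 250 * s ^ 2 := by
    positivity
  have e :
      1 / 125 * t ^ 2 + 379 / 250 * s * t + 681 / 250 * s ^ 2 =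
      (8 - (2 * (111 / 250) + 3 * (19 / 250) * x) * (9 - 8 * x) -
      8 * x * ((111 / 250) + (19 / 250) * x)) -
      0 := by
    rw [hs, ht]
    ring
  rw [e] at h
  linarith

/-- the pair `(11 / 10, 12 / 5)` -/
theorem cre_d : Cre (11 / 10) (12 / 5) := by
  refine Cre.of (a := (111 / 250)) (b := (19 / 250)) (by norm_num) ?_ (by norm_num) ?_
  · intro x h0 h1
    exact cre_d_p_0 x (by linarith) (by linarith)
  · intro x h0 h1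
    exact cre_d_q_0 x (by linarith) (by linarith)

theorem cre_e_p_0 (x : ℝ) (h1 : 0 ≤ x) (h2 : x ≤ 1 / 4) :
    x ^ 3 * ((11 / 25) + (4 / 25) * x) ^ 2 * (9 - 8 * x) ≤
      (6 / 5 - x ^ 2) *
      (8 - (2 * (11 / 25) + 3 * (4 / 25) * x) * (9 - 8 * x) -
      8 * x * ((11 / 25) + (4 / 25) * x)) := by
  obtain ⟨s, hs⟩ : ∃ s, s = x - 0 := ⟨_, rfl⟩
  obtain ⟨t, ht⟩ : ∃ t, t = 1 / 4 - x := ⟨_, rfl⟩
  have hs0 : 0 ≤ s := by linarith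
  have ht0 : 0 ≤ t := by linarith
  have h : 0 ≤
      49152 / 125 * t ^ 6 + 172032 / 125 * s * t ^ 5 + 218624 / 125 * s ^ 2 * t ^ 4 +
      648384 / 625 * s ^ 3 * t ^ 3 + 278848 / 625 * s ^ 4 * t ^ 2 +
      161024 / 625 * s ^ 5 * t + 51968 / 625 * s ^ 6 := by
    positivity
  have e :
      49152 / 125 * t ^ 6 + 172032 / 125 * s * t ^ 5 + 218624 / 125 * s ^ 2 * t ^ 4 +
      648384 / 625 * s ^ 3 * t ^ 3 + 278848 / 625 * s ^ 4 * t ^ 2 +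
      161024 / 625 * s ^ 5 * t + 51968 / 625 * s ^ 6 =
      (6 / 5 - x ^ 2) *
      (8 - (2 * (11 / 25) + 3 * (4 / 25) * x) * (9 - 8 * x) -
      8 * x * ((11 / 25) + (4 / 25) * x)) -
      x ^ 3 * ((11 / 25) + (4 / 25) * x) ^ 2 * (9 - 8 * x) := by
    rw [hs, ht]
    ring
  rw [e] at h
  linarith

theorem cre_e_p_1 (x : ℝ) (h1 : 1 / 4 ≤ x) (h2 : x ≤ 1 / 2) :
    x ^ 3 * ((11 / 25) + (4 / 25) * x) ^ 2 * (9 - 8 * x) ≤
      (6 / 5 - x ^ 2) *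
      (8 - (2 * (11 / 25) + 3 * (4 / 25) * x) * (9 - 8 * x) -
      8 * x * ((11 / 25) + (4 / 25) * x)) := by
  obtain ⟨s, hs⟩ : ∃ s, s = x - 1 / 4 := ⟨_, rfl⟩
  obtain ⟨t, ht⟩ : ∃ t, t = 1 / 2 - x := ⟨_, rfl⟩
  have hs0 : 0 ≤ s := by linarith
  have ht0 : 0 ≤ t := by linarith
  have h : 0 ≤
      51968 / 625 * t ^ 6 + 462592 / 625 * s * t ^ 5 + 1786688 / 625 * s ^ 2 * t ^ 4 +
      691264 / 125 * s ^ 3 * t ^ 3 + 3485568 / 625 * s ^ 4 * t ^ 2 +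
      1750784 / 625 * s ^ 5 * t + 13824 / 25 * s ^ 6 := by
    positivity
  have e :
      51968 / 625 * t ^ 6 + 462592 / 625 * s * t ^ 5 + 1786688 / 625 * s ^ 2 * t ^ 4 +
      691264 / 125 * s ^ 3 * t ^ 3 + 3485568 / 625 * s ^ 4 * t ^ 2 +
      1750784 / 625 * s ^ 5 * t + 13824 / 25 * s ^ 6 =
      (6 / 5 - x ^ 2) *
      (8 - (2 * (11 / 25) + 3 * (4 / 25) * x) * (9 - 8 * x) -
      8 * x * ((11 / 25) + (4 / 25) * x)) -
      x ^ 3 * ((11 / 25) + (4 / 25) * x) ^ 2 * (9 - 8 * x) := by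
    rw [hs, ht]
    ring
  rw [e] at h
  linarith

theorem cre_e_p_2 (x : ℝ) (h1 : 1 / 2 ≤ x) (h2 : x ≤ 1) :
    x ^ 3 * ((11 / 25) + (4 / 25) * x) ^ 2 * (9 - 8 * x) ≤
      (6 / 5 - x ^ 2) *
      (8 - (2 * (11 / 25) + 3 * (4 / 25) * x) * (9 - 8 * x) -
      8 * x * ((11 / 25) + (4 / 25) * x)) := by
  obtain ⟨s, hs⟩ : ∃ s, s = x - 1 / 2 := ⟨_, rfl⟩
  obtain ⟨t, ht⟩ : ∃ t, t = 1 - x := ⟨_, rfl⟩
  have hs0 : 0 ≤ s := by linarith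
  have ht0 : 0 ≤ t := by linarith
  have h : 0 ≤
      216 / 25 * t ^ 6 + 42488 / 625 * s * t ^ 5 + 126168 / 625 * s ^ 2 * t ^ 4 +
      174056 / 625 * s ^ 3 * t ^ 3 + 110864 / 625 * s ^ 4 * t ^ 2 + 5216 / 125 * s ^ 5 * t +
      64 / 125 * s ^ 6 := by
    positivity
  have e :
      216 / 25 * t ^ 6 + 42488 / 625 * s * t ^ 5 + 126168 / 625 * s ^ 2 * t ^ 4 +
      174056 / 625 * s ^ 3 * t ^ 3 + 110864 / 625 * s ^ 4 * t ^ 2 + 5216 / 125 * s ^ 5 * t +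
      64 / 125 * s ^ 6 =
      (6 / 5 - x ^ 2) *
      (8 - (2 * (11 / 25) + 3 * (4 / 25) * x) * (9 - 8 * x) -
      8 * x * ((11 / 25) + (4 / 25) * x)) -
      x ^ 3 * ((11 / 25) + (4 / 25) * x) ^ 2 * (9 - 8 * x) := by
    rw [hs, ht]
    ring
  rw [e] at h
  linarith

theorem cre_e_q_0 (x : ℝ) (h1 : 0 ≤ x) (h2 : x ≤ 1 / 8) :
    0 ≤
      (8 - (2 * (11 / 25) + 3 * (4 / 25) * x) * (9 - 8 * x) -
      8 * x * ((11 / 25) + (4 / 25) * x)) := by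
  obtain ⟨s, hs⟩ : ∃ s, s = x - 0 := ⟨_, rfl⟩
  obtain ⟨t, ht⟩ : ∃ t, t = 1 / 8 - x := ⟨_, rfl⟩
  have hs0 : 0 ≤ s := by linarith
  have ht0 : 0 ≤ t := by linarith
  have h : 0 ≤
      128 / 25 * t ^ 2 + 96 / 25 * s * t + 32 / 25 * s ^ 2 := by
    positivity
  have e :
      128 / 25 * t ^ 2 + 96 / 25 * s * t + 32 / 25 * s ^ 2 =
      (8 - (2 * (11 / 25) + 3 * (4 / 25) * x) * (9 - 8 * x) -
      8 * x * ((11 / 25) + (4 / 25) * x)) -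
      0 := by
    rw [hs, ht]
    ring
  rw [e] at h
  linarith

theorem cre_e_q_1 (x : ℝ) (h1 : 1 / 8 ≤ x) (h2 : x ≤ 1 / 4) :
    0 ≤
      (8 - (2 * (11 / 25) + 3 * (4 / 25) * x) * (9 - 8 * x) -
      8 * x * ((11 / 25) + (4 / 25) * x)) := by
  obtain ⟨s, hs⟩ : ∃ s, s = x - 1 / 8 := ⟨_, rfl⟩
  obtain ⟨t, ht⟩ : ∃ t, t = 1 / 4 - x := ⟨_, rfl⟩
  have hs0 : 0 ≤ s := by linarith
  have ht0 : 0 ≤ t := by linarith
  have h : 0 ≤
      32 / 25 * t ^ 2 + 32 / 25 * s * t + 64 / 25 * s ^ 2 := by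
    positivity
  have e :
      32 / 25 * t ^ 2 + 32 / 25 * s * t + 64 / 25 * s ^ 2 =
      (8 - (2 * (11 / 25) + 3 * (4 / 25) * x) * (9 - 8 * x) -
      8 * x * ((11 / 25) + (4 / 25) * x)) -
      0 := by
    rw [hs, ht]
    ring
  rw [e] at h
  linarith

theorem cre_e_q_2 (x : ℝ) (h1 : 1 / 4 ≤ x) (h2 : x ≤ 1 / 2) :
    0 ≤
      (8 - (2 * (11 / 25) + 3 * (4 / 25) * x) * (9 - 8 * x) -
      8 * x * ((11 / 25) + (4 / 25) * x)) := by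
  obtain ⟨s, hs⟩ : ∃ s, s = x - 1 / 4 := ⟨_, rfl⟩
  obtain ⟨t, ht⟩ : ∃ t, t = 1 / 2 - x := ⟨_, rfl⟩
  have hs0 : 0 ≤ s := by linarith
  have ht0 : 0 ≤ t := by linarith
  have h : 0 ≤
      16 / 25 * t ^ 2 + 16 / 5 * s * t + 128 / 25 * s ^ 2 := by
    positivity
  have e :
      16 / 25 * t ^ 2 + 16 / 5 * s * t + 128 / 25 * s ^ 2 =
      (8 - (2 * (11 / 25) + 3 * (4 / 25) * x) * (9 - 8 * x) -
      8 * x * ((11 / 25) + (4 / 25) * x)) -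
      0 := by
    rw [hs, ht]
    ring
  rw [e] at h
  linarith

theorem cre_e_q_3 (x : ℝ) (h1 : 1 / 2 ≤ x) (h2 : x ≤ 1) :
    0 ≤
      (8 - (2 * (11 / 25) + 3 * (4 / 25) * x) * (9 - 8 * x) -
      8 * x * ((11 / 25) + (4 / 25) * x)) := by
  obtain ⟨s, hs⟩ : ∃ s, s = x - 1 / 2 := ⟨_, rfl⟩
  obtain ⟨t, ht⟩ : ∃ t, t = 1 - x := ⟨_, rfl⟩
  have hs0 : 0 ≤ s := by linarith
  have ht0 : 0 ≤ t := by linarith
  have h : 0 ≤
      32 / 25 * t ^ 2 + 152 / 25 * s * t + 184 / 25 * s ^ 2 := by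
    positivity
  have e :
      32 / 25 * t ^ 2 + 152 / 25 * s * t + 184 / 25 * s ^ 2 =
      (8 - (2 * (11 / 25) + 3 * (4 / 25) * x) * (9 - 8 * x) -
      8 * x * ((11 / 25) + (4 / 25) * x)) -
      0 := by
    rw [hs, ht]
    ring
  rw [e] at h
  linarith

/-- the pair `(6 / 5, 2)` -/
theorem cre_e : Cre (6 / 5) (2) := by
  refine Cre.of (a := (11 / 25)) (b := (4 / 25)) (by norm_num) ?_ (by norm_num) ?_
  · intro x h0 h1
    rcases le_total x (1 / 4) with h2 | h2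
    · exact cre_e_p_0 x (by linarith) h2
    rcases le_total x (1 / 2) with h2 | h2
    · exact cre_e_p_1 x (by linarith) h2
    exact cre_e_p_2 x (by linarith) (by linarith)
  · intro x h0 h1
    rcases le_total x (1 / 8) with h2 | h2
    · exact cre_e_q_0 x (by linarith) h2
    rcases le_total x (1 / 4) with h2 | h2
    · exact cre_e_q_1 x (by linarith) h2
    rcases le_total x (1 / 2) with h2 | h2
    · exact cre_e_q_2 x (by linarith) h2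
    exact cre_e_q_3 x (by linarith) (by linarith)

theorem cre_f_p_0 (x : ℝ) (h1 : 0 ≤ x) (h2 : x ≤ 1 / 2) :
    x ^ 3 * ((571 / 2000) + (9 / 25) * x) ^ 2 * (9 - 8 * x) ≤
      (7 / 5 - x ^ 2) *
      (8 - (2 * (571 / 2000) + 3 * (9 / 25) * x) * (9 - 8 * x) -
      8 * x * ((571 / 2000) + (9 / 25) * x)) := by
  obtain ⟨s, hs⟩ : ∃ s, s = x - 0 := ⟨_, rfl⟩
  obtain ⟨t, ht⟩ : ∃ t, t = 1 / 2 - x := ⟨_, rfl⟩
  have hs0 : 0 ≤ s := by linarith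
  have ht0 : 0 ≤ t := by linarith
  have h : 0 ≤
      160216 / 625 * t ^ 6 + 753088 / 625 * s * t ^ 5 + 282846 / 125 * s ^ 2 * t ^ 4 +
      1091097631 / 500000 * s ^ 3 * t ^ 3 + 573184977 / 500000 * s ^ 4 * t ^ 2 +
      155775941 / 500000 * s ^ 5 * t + 3424119 / 100000 * s ^ 6 := by
    positivity
  have e :
      160216 / 625 * t ^ 6 + 753088 / 625 * s * t ^ 5 + 282846 / 125 * s ^ 2 * t ^ 4 +
      1091097631 / 500000 * s ^ 3 * t ^ 3 + 573184977 / 500000 * s ^ 4 * t ^ 2 +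
      155775941 / 500000 * s ^ 5 * t + 3424119 / 100000 * s ^ 6 =
      (7 / 5 - x ^ 2) *
      (8 - (2 * (571 / 2000) + 3 * (9 / 25) * x) * (9 - 8 * x) -
      8 * x * ((571 / 2000) + (9 / 25) * x)) -
      x ^ 3 * ((571 / 2000) + (9 / 25) * x) ^ 2 * (9 - 8 * x) := by
    rw [hs, ht]
    ring
  rw [e] at h
  linarith

theorem cre_f_p_1 (x : ℝ) (h1 : 1 / 2 ≤ x) (h2 : x ≤ 3 / 4) :
    x ^ 3 * ((571 / 2000) + (9 / 25) * x) ^ 2 * (9 - 8 * x) ≤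
      (7 / 5 - x ^ 2) *
      (8 - (2 * (571 / 2000) + 3 * (9 / 25) * x) * (9 - 8 * x) -
      8 * x * ((571 / 2000) + (9 / 25) * x)) := by
  obtain ⟨s, hs⟩ : ∃ s, s = x - 1 / 2 := ⟨_, rfl⟩
  obtain ⟨t, ht⟩ : ∃ t, t = 3 / 4 - x := ⟨_, rfl⟩
  have hs0 : 0 ≤ s := by linarith
  have ht0 : 0 ≤ t := by linarith
  have h : 0 ≤
      6848238 / 3125 * t ^ 6 + 152394769 / 15625 * s * t ^ 5 +
      547826187 / 31250 * s ^ 2 * t ^ 4 + 1012408703 / 62500 * s ^ 3 * t ^ 3 +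
      502756467 / 62500 * s ^ 4 * t ^ 2 + 125686621 / 62500 * s ^ 5 * t +
      12365599 / 62500 * s ^ 6 := by
    positivity
  have e :
      6848238 / 3125 * t ^ 6 + 152394769 / 15625 * s * t ^ 5 +
      547826187 / 31250 * s ^ 2 * t ^ 4 + 1012408703 / 62500 * s ^ 3 * t ^ 3 +
      502756467 / 62500 * s ^ 4 * t ^ 2 + 125686621 / 62500 * s ^ 5 * t +
      12365599 / 62500 * s ^ 6 =
      (7 / 5 - x ^ 2) *
      (8 - (2 * (571 / 2000) + 3 * (9 / 25) * x) * (9 - 8 * x) -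
      8 * x * ((571 / 2000) + (9 / 25) * x)) -
      x ^ 3 * ((571 / 2000) + (9 / 25) * x) ^ 2 * (9 - 8 * x) := by
    rw [hs, ht]
    ring
  rw [e] at h
  linarith

theorem cre_f_p_2 (x : ℝ) (h1 : 3 / 4 ≤ x) (h2 : x ≤ 7 / 8) :
    x ^ 3 * ((571 / 2000) + (9 / 25) * x) ^ 2 * (9 - 8 * x) ≤
      (7 / 5 - x ^ 2) *
      (8 - (2 * (571 / 2000) + 3 * (9 / 25) * x) * (9 - 8 * x) -
      8 * x * ((571 / 2000) + (9 / 25) * x)) := by
  obtain ⟨s, hs⟩ : ∃ s, s = x - 3 / 4 := ⟨_, rfl⟩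
  obtain ⟨t, ht⟩ : ∃ t, t = 7 / 8 - x := ⟨_, rfl⟩
  have hs0 : 0 ≤ s := by linarith
  have ht0 : 0 ≤ t := by linarith
  have h : 0 ≤
      197849584 / 15625 * t ^ 6 + 775153288 / 15625 * s * t ^ 5 +
      1147252068 / 15625 * s ^ 2 * t ^ 4 + 772592942 / 15625 * s ^ 3 * t ^ 3 +
      44327676 / 3125 * s ^ 4 * t ^ 2 + 5296046 / 3125 * s ^ 5 * t + 7502628 / 15625 * s ^ 6 := by
    positivity
  have e :
      197849584 / 15625 * t ^ 6 + 775153288 / 15625 * s * t ^ 5 +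
      1147252068 / 15625 * s ^ 2 * t ^ 4 + 772592942 / 15625 * s ^ 3 * t ^ 3 +
      44327676 / 3125 * s ^ 4 * t ^ 2 + 5296046 / 3125 * s ^ 5 * t + 7502628 / 15625 * s ^ 6 =
      (7 / 5 - x ^ 2) *
      (8 - (2 * (571 / 2000) + 3 * (9 / 25) * x) * (9 - 8 * x) -
      8 * x * ((571 / 2000) + (9 / 25) * x)) -
      x ^ 3 * ((571 / 2000) + (9 / 25) * x) ^ 2 * (9 - 8 * x) := by
    rw [hs, ht]
    ring
  rw [e] at h
  linarith

theorem cre_f_p_3 (x : ℝ) (h1 : 7 / 8 ≤ x) (h2 : x ≤ 1) :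
    x ^ 3 * ((571 / 2000) + (9 / 25) * x) ^ 2 * (9 - 8 * x) ≤
      (7 / 5 - x ^ 2) *
      (8 - (2 * (571 / 2000) + 3 * (9 / 25) * x) * (9 - 8 * x) -
      8 * x * ((571 / 2000) + (9 / 25) * x)) := by
  obtain ⟨s, hs⟩ : ∃ s, s = x - 7 / 8 := ⟨_, rfl⟩
  obtain ⟨t, ht⟩ : ∃ t, t = 1 - x := ⟨_, rfl⟩
  have hs0 : 0 ≤ s := by linarith
  have ht0 : 0 ≤ t := by linarith
  have h : 0 ≤
      7502628 / 15625 * t ^ 6 + 63551306 / 15625 * s * t ^ 5 +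
      81398752 / 3125 * s ^ 2 * t ^ 4 + 1141725378 / 15625 * s ^ 3 * t ^ 3 +
      1513227856 / 15625 * s ^ 4 * t ^ 2 + 957254016 / 15625 * s ^ 5 * t +
      234822656 / 15625 * s ^ 6 := by
    positivity
  have e :
      7502628 / 15625 * t ^ 6 + 63551306 / 15625 * s * t ^ 5 +
      81398752 / 3125 * s ^ 2 * t ^ 4 + 1141725378 / 15625 * s ^ 3 * t ^ 3 +
      1513227856 / 15625 * s ^ 4 * t ^ 2 + 957254016 / 15625 * s ^ 5 * t +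
      234822656 / 15625 * s ^ 6 =
      (7 / 5 - x ^ 2) *
      (8 - (2 * (571 / 2000) + 3 * (9 / 25) * x) * (9 - 8 * x) -
      8 * x * ((571 / 2000) + (9 / 25) * x)) -
      x ^ 3 * ((571 / 2000) + (9 / 25) * x) ^ 2 * (9 - 8 * x) := by
    rw [hs, ht]
    ring
  rw [e] at h
  linarith

theorem cre_f_q_0 (x : ℝ) (h1 : 0 ≤ x) (h2 : x ≤ 1 / 2) :
    0 ≤
      (8 - (2 * (571 / 2000) + 3 * (9 / 25) * x) * (9 - 8 * x) -
      8 * x * ((571 / 2000) + (9 / 25) * x)) := by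
  obtain ⟨s, hs⟩ : ∃ s, s = x - 0 := ⟨_, rfl⟩
  obtain ⟨t, ht⟩ : ∃ t, t = 1 / 2 - x := ⟨_, rfl⟩
  have hs0 : 0 ≤ s := by linarith
  have ht0 : 0 ≤ t := by linarith
  have h : 0 ≤
      2861 / 250 * t ^ 2 + 1002 / 125 * s * t + 583 / 250 * s ^ 2 := by
    positivity
  have e :
      2861 / 250 * t ^ 2 + 1002 / 125 * s * t + 583 / 250 * s ^ 2 =
      (8 - (2 * (571 / 2000) + 3 * (9 / 25) * x) * (9 - 8 * x) -
      8 * x * ((571 / 2000) + (9 / 25) * x)) -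
      0 := by
    rw [hs, ht]
    ring
  rw [e] at h
  linarith

theorem cre_f_q_1 (x : ℝ) (h1 : 1 / 2 ≤ x) (h2 : x ≤ 1) :
    0 ≤
      (8 - (2 * (571 / 2000) + 3 * (9 / 25) * x) * (9 - 8 * x) -
      8 * x * ((571 / 2000) + (9 / 25) * x)) := by
  obtain ⟨s, hs⟩ : ∃ s, s = x - 1 / 2 := ⟨_, rfl⟩
  obtain ⟨t, ht⟩ : ∃ t, t = 1 - x := ⟨_, rfl⟩
  have hs0 : 0 ≤ s := by linarith
  have ht0 : 0 ≤ t := by linarith
  have h : 0 ≤
      583 / 250 * t ^ 2 + 164 / 125 * s * t + 237 / 50 * s ^ 2 := by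
    positivity
  have e :
      583 / 250 * t ^ 2 + 164 / 125 * s * t + 237 / 50 * s ^ 2 =
      (8 - (2 * (571 / 2000) + 3 * (9 / 25) * x) * (9 - 8 * x) -
      8 * x * ((571 / 2000) + (9 / 25) * x)) -
      0 := by
    rw [hs, ht]
    ring
  rw [e] at h
  linarith

/-- the pair `(7 / 5, 709 / 400)` -/
theorem cre_f : Cre (7 / 5) (709 / 400) := by
  refine Cre.of (a := (571 / 2000)) (b := (9 / 25)) (by norm_num) ?_ (by norm_num) ?_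
  · intro x h0 h1
    rcases le_total x (1 / 2) with h2 | h2
    · exact cre_f_p_0 x (by linarith) h2
    rcases le_total x (3 / 4) with h2 | h2
    · exact cre_f_p_1 x (by linarith) h2
    rcases le_total x (7 / 8) with h2 | h2
    · exact cre_f_p_2 x (by linarith) h2
    exact cre_f_p_3 x (by linarith) (by linarith)
  · intro x h0 h1
    rcases le_total x (1 / 2) with h2 | h2
    · exact cre_f_q_0 x (by linarith) h2
    exact cre_f_q_1 x (by linarith) (by linarith)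

theorem cre_g_p_0 (x : ℝ) (h1 : 0 ≤ x) (h2 : x ≤ 1 / 2) :
    x ^ 3 * ((13 / 100) + (27 / 50) * x) ^ 2 * (9 - 8 * x) ≤
      (2 - x ^ 2) *
      (8 - (2 * (13 / 100) + 3 * (27 / 50) * x) * (9 - 8 * x) -
      8 * x * ((13 / 100) + (27 / 50) * x)) := by
  obtain ⟨s, hs⟩ : ∃ s, s = x - 0 := ⟨_, rfl⟩
  obtain ⟨t, ht⟩ : ∃ t, t = 1 / 2 - x := ⟨_, rfl⟩
  have hs0 : 0 ≤ s := by linarith
  have ht0 : 0 ≤ t := by linarith
  have h : 0 ≤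
      18112 / 25 * t ^ 6 + 87008 / 25 * s * t ^ 5 + 168008 / 25 * s ^ 2 * t ^ 4 +
      8343479 / 1250 * s ^ 3 * t ^ 3 + 899839 / 250 * s ^ 4 * t ^ 2 +
      24948 / 25 * s ^ 5 * t + 556 / 5 * s ^ 6 := by
    positivity
  have e :
      18112 / 25 * t ^ 6 + 87008 / 25 * s * t ^ 5 + 168008 / 25 * s ^ 2 * t ^ 4 +
      8343479 / 1250 * s ^ 3 * t ^ 3 + 899839 / 250 * s ^ 4 * t ^ 2 +
      24948 / 25 * s ^ 5 * t + 556 / 5 * s ^ 6 =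
      (2 - x ^ 2) *
      (8 - (2 * (13 / 100) + 3 * (27 / 50) * x) * (9 - 8 * x) -
      8 * x * ((13 / 100) + (27 / 50) * x)) -
      x ^ 3 * ((13 / 100) + (27 / 50) * x) ^ 2 * (9 - 8 * x) := by
    rw [hs, ht]
    ring
  rw [e] at h
  linarith

theorem cre_g_p_1 (x : ℝ) (h1 : 1 / 2 ≤ x) (h2 : x ≤ 3 / 4) :
    x ^ 3 * ((13 / 100) + (27 / 50) * x) ^ 2 * (9 - 8 * x) ≤
      (2 - x ^ 2) *
      (8 - (2 * (13 / 100) + 3 * (27 / 50) * x) * (9 - 8 * x) -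
      8 * x * ((13 / 100) + (27 / 50) * x)) := by
  obtain ⟨s, hs⟩ : ∃ s, s = x - 1 / 2 := ⟨_, rfl⟩
  obtain ⟨t, ht⟩ : ∃ t, t = 3 / 4 - x := ⟨_, rfl⟩
  have hs0 : 0 ≤ s := by linarith
  have ht0 : 0 ≤ t := by linarith
  have h : 0 ≤
      35584 / 5 * t ^ 6 + 802944 / 25 * s * t ^ 5 + 7285112 / 125 * s ^ 2 * t ^ 4 +
      33763444 / 625 * s ^ 3 * t ^ 3 + 16705238 / 625 * s ^ 4 * t ^ 2 +
      4156127 / 625 * s ^ 5 * t + 415831 / 625 * s ^ 6 := by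
    positivity
  have e :
      35584 / 5 * t ^ 6 + 802944 / 25 * s * t ^ 5 + 7285112 / 125 * s ^ 2 * t ^ 4 +
      33763444 / 625 * s ^ 3 * t ^ 3 + 16705238 / 625 * s ^ 4 * t ^ 2 +
      4156127 / 625 * s ^ 5 * t + 415831 / 625 * s ^ 6 =
      (2 - x ^ 2) *
      (8 - (2 * (13 / 100) + 3 * (27 / 50) * x) * (9 - 8 * x) -
      8 * x * ((13 / 100) + (27 / 50) * x)) -
      x ^ 3 * ((13 / 100) + (27 / 50) * x) ^ 2 * (9 - 8 * x) := by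
    rw [hs, ht]
    ring
  rw [e] at h
  linarith

theorem cre_g_p_2 (x : ℝ) (h1 : 3 / 4 ≤ x) (h2 : x ≤ 1) :
    x ^ 3 * ((13 / 100) + (27 / 50) * x) ^ 2 * (9 - 8 * x) ≤
      (2 - x ^ 2) *
      (8 - (2 * (13 / 100) + 3 * (27 / 50) * x) * (9 - 8 * x) -
      8 * x * ((13 / 100) + (27 / 50) * x)) := by
  obtain ⟨s, hs⟩ : ∃ s, s = x - 3 / 4 := ⟨_, rfl⟩
  obtain ⟨t, ht⟩ : ∃ t, t = 1 - x := ⟨_, rfl⟩
  have hs0 : 0 ≤ s := by linarith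
  have ht0 : 0 ≤ t := by linarith
  have h : 0 ≤
      415831 / 625 * t ^ 6 + 166769 / 125 * s * t ^ 5 + 93828 / 625 * s ^ 2 * t ^ 4 +
      33268 / 125 * s ^ 3 * t ^ 3 + 2079888 / 625 * s ^ 4 * t ^ 2 +
      476864 / 125 * s ^ 5 * t + 796416 / 625 * s ^ 6 := by
    positivity
  have e :
      415831 / 625 * t ^ 6 + 166769 / 125 * s * t ^ 5 + 93828 / 625 * s ^ 2 * t ^ 4 +
      33268 / 125 * s ^ 3 * t ^ 3 + 2079888 / 625 * s ^ 4 * t ^ 2 +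
      476864 / 125 * s ^ 5 * t + 796416 / 625 * s ^ 6 =
      (2 - x ^ 2) *
      (8 - (2 * (13 / 100) + 3 * (27 / 50) * x) * (9 - 8 * x) -
      8 * x * ((13 / 100) + (27 / 50) * x)) -
      x ^ 3 * ((13 / 100) + (27 / 50) * x) ^ 2 * (9 - 8 * x) := by
    rw [hs, ht]
    ring
  rw [e] at h
  linarith

theorem cre_g_q_0 (x : ℝ) (h1 : 0 ≤ x) (h2 : x ≤ 1 / 2) :
    0 ≤
      (8 - (2 * (13 / 100) + 3 * (27 / 50) * x) * (9 - 8 * x) -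
      8 * x * ((13 / 100) + (27 / 50) * x)) := by
  obtain ⟨s, hs⟩ : ∃ s, s = x - 0 := ⟨_, rfl⟩
  obtain ⟨t, ht⟩ : ∃ t, t = 1 / 2 - x := ⟨_, rfl⟩
  have hs0 : 0 ≤ s := by linarith
  have ht0 : 0 ≤ t := by linarith
  have h : 0 ≤
      566 / 25 * t ^ 2 + 91 / 5 * s * t + 21 / 5 * s ^ 2 := by
    positivity
  have e :
      566 / 25 * t ^ 2 + 91 / 5 * s * t + 21 / 5 * s ^ 2 =
      (8 - (2 * (13 / 100) + 3 * (27 / 50) * x) * (9 - 8 * x) -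
      8 * x * ((13 / 100) + (27 / 50) * x)) -
      0 := by
    rw [hs, ht]
    ring
  rw [e] at h
  linarith

theorem cre_g_q_1 (x : ℝ) (h1 : 1 / 2 ≤ x) (h2 : x ≤ 3 / 4) :
    0 ≤
      (8 - (2 * (13 / 100) + 3 * (27 / 50) * x) * (9 - 8 * x) -
      8 * x * ((13 / 100) + (27 / 50) * x)) := by
  obtain ⟨s, hs⟩ : ∃ s, s = x - 1 / 2 := ⟨_, rfl⟩
  obtain ⟨t, ht⟩ : ∃ t, t = 3 / 4 - x := ⟨_, rfl⟩
  have hs0 : 0 ≤ s := by linarith
  have ht0 : 0 ≤ t := by linarith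
  have h : 0 ≤
      84 / 5 * t ^ 2 + 14 * s * t + 146 / 25 * s ^ 2 := by
    positivity
  have e :
      84 / 5 * t ^ 2 + 14 * s * t + 146 / 25 * s ^ 2 =
      (8 - (2 * (13 / 100) + 3 * (27 / 50) * x) * (9 - 8 * x) -
      8 * x * ((13 / 100) + (27 / 50) * x)) -
      0 := by
    rw [hs, ht]
    ring
  rw [e] at h
  linarith

theorem cre_g_q_2 (x : ℝ) (h1 : 3 / 4 ≤ x) (h2 : x ≤ 1) :
    0 ≤
      (8 - (2 * (13 / 100) + 3 * (27 / 50) * x) * (9 - 8 * x) -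
      8 * x * ((13 / 100) + (27 / 50) * x)) := by
  obtain ⟨s, hs⟩ : ∃ s, s = x - 3 / 4 := ⟨_, rfl⟩
  obtain ⟨t, ht⟩ : ∃ t, t = 1 - x := ⟨_, rfl⟩
  have hs0 : 0 ≤ s := by linarith
  have ht0 : 0 ≤ t := by linarith
  have h : 0 ≤
      146 / 25 * t ^ 2 + 234 / 25 * s * t + 304 / 25 * s ^ 2 := by
    positivity
  have e :
      146 / 25 * t ^ 2 + 234 / 25 * s * t + 304 / 25 * s ^ 2 =
      (8 - (2 * (13 / 100) + 3 * (27 / 50) * x) * (9 - 8 * x) -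
      8 * x * ((13 / 100) + (27 / 50) * x)) -
      0 := by
    rw [hs, ht]
    ring
  rw [e] at h
  linarith

/-- the pair `(2, 33 / 20)` -/
theorem cre_g : Cre (2) (33 / 20) := by
  refine Cre.of (a := (13 / 100)) (b := (27 / 50)) (by norm_num) ?_ (by norm_num) ?_
  · intro x h0 h1
    rcases le_total x (1 / 2) with h2 | h2
    · exact cre_g_p_0 x (by linarith) h2
    rcases le_total x (3 / 4) with h2 | h2
    · exact cre_g_p_1 x (by linarith) h2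
    exact cre_g_p_2 x (by linarith) (by linarith)
  · intro x h0 h1
    rcases le_total x (1 / 2) with h2 | h2
    · exact cre_g_q_0 x (by linarith) h2
    rcases le_total x (3 / 4) with h2 | h2
    · exact cre_g_q_1 x (by linarith) h2
    exact cre_g_q_2 x (by linarith) (by linarith)

theorem cre_h_p_0 (x : ℝ) (h1 : 0 ≤ x) (h2 : x ≤ 1 / 2) :
    x ^ 3 * ((7 / 100) + (31 / 50) * x) ^ 2 * (9 - 8 * x) ≤
      (4 - x ^ 2) *
      (8 - (2 * (7 / 100) + 3 * (31 / 50) * x) * (9 - 8 * x) -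
      8 * x * ((7 / 100) + (31 / 50) * x)) := by
  obtain ⟨s, hs⟩ : ∃ s, s = x - 0 := ⟨_, rfl⟩
  obtain ⟨t, ht⟩ : ∃ t, t = 1 / 2 - x := ⟨_, rfl⟩
  have hs0 : 0 ≤ s := by linarith
  have ht0 : 0 ≤ t := by linarith
  have h : 0 ≤
      43136 / 25 * t ^ 6 + 41408 / 5 * s * t ^ 5 + 401336 / 25 * s ^ 2 * t ^ 4 +
      20044559 / 1250 * s ^ 3 * t ^ 3 + 10847567 / 1250 * s ^ 4 * t ^ 2 +
      1501272 / 625 * s ^ 5 * t + 33178 / 125 * s ^ 6 := by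
    positivity
  have e :
      43136 / 25 * t ^ 6 + 41408 / 5 * s * t ^ 5 + 401336 / 25 * s ^ 2 * t ^ 4 +
      20044559 / 1250 * s ^ 3 * t ^ 3 + 10847567 / 1250 * s ^ 4 * t ^ 2 +
      1501272 / 625 * s ^ 5 * t + 33178 / 125 * s ^ 6 =
      (4 - x ^ 2) *
      (8 - (2 * (7 / 100) + 3 * (31 / 50) * x) * (9 - 8 * x) -
      8 * x * ((7 / 100) + (31 / 50) * x)) -
      x ^ 3 * ((7 / 100) + (31 / 50) * x) ^ 2 * (9 - 8 * x) := by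
    rw [hs, ht]
    ring
  rw [e] at h
  linarith

theorem cre_h_p_1 (x : ℝ) (h1 : 1 / 2 ≤ x) (h2 : x ≤ 3 / 4) :
    x ^ 3 * ((7 / 100) + (31 / 50) * x) ^ 2 * (9 - 8 * x) ≤
      (4 - x ^ 2) *
      (8 - (2 * (7 / 100) + 3 * (31 / 50) * x) * (9 - 8 * x) -
      8 * x * ((7 / 100) + (31 / 50) * x)) := by
  obtain ⟨s, hs⟩ : ∃ s, s = x - 1 / 2 := ⟨_, rfl⟩
  obtain ⟨t, ht⟩ : ∃ t, t = 3 / 4 - x := ⟨_, rfl⟩
  have hs0 : 0 ≤ s := by linarith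
  have ht0 : 0 ≤ t := by linarith
  have h : 0 ≤
      2123392 / 125 * t ^ 6 + 47511936 / 625 * s * t ^ 5 + 84797656 / 625 * s ^ 2 * t ^ 4 +
      15246788 / 125 * s ^ 3 * t ^ 3 + 35720414 / 625 * s ^ 4 * t ^ 2 +
      8087863 / 625 * s ^ 5 * t + 700631 / 625 * s ^ 6 := by
    positivity
  have e :
      2123392 / 125 * t ^ 6 + 47511936 / 625 * s * t ^ 5 + 84797656 / 625 * s ^ 2 * t ^ 4 +
      15246788 / 125 * s ^ 3 * t ^ 3 + 35720414 / 625 * s ^ 4 * t ^ 2 +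
      8087863 / 625 * s ^ 5 * t + 700631 / 625 * s ^ 6 =
      (4 - x ^ 2) *
      (8 - (2 * (7 / 100) + 3 * (31 / 50) * x) * (9 - 8 * x) -
      8 * x * ((7 / 100) + (31 / 50) * x)) -
      x ^ 3 * ((7 / 100) + (31 / 50) * x) ^ 2 * (9 - 8 * x) := by
    rw [hs, ht]
    ring
  rw [e] at h
  linarith

theorem cre_h_p_2 (x : ℝ) (h1 : 3 / 4 ≤ x) (h2 : x ≤ 13 / 16) :
    x ^ 3 * ((7 / 100) + (31 / 50) * x) ^ 2 * (9 - 8 * x) ≤
      (4 - x ^ 2) *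
      (8 - (2 * (7 / 100) + 3 * (31 / 50) * x) * (9 - 8 * x) -
      8 * x * ((7 / 100) + (31 / 50) * x)) := by
  obtain ⟨s, hs⟩ : ∃ s, s = x - 3 / 4 := ⟨_, rfl⟩
  obtain ⟨t, ht⟩ : ∃ t, t = 13 / 16 - x := ⟨_, rfl⟩
  have hs0 : 0 ≤ s := by linarith
  have ht0 : 0 ≤ t := by linarith
  have h : 0 ≤
      2869784576 / 625 * t ^ 6 + 13241412608 / 625 * s * t ^ 5 +
      24642678784 / 625 * s ^ 2 * t ^ 4 + 4707661952 / 125 * s ^ 3 * t ^ 3 +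
      12127000496 / 625 * s ^ 4 * t ^ 2 + 3221541996 / 625 * s ^ 5 * t +
      72360486 / 125 * s ^ 6 := by
    positivity
  have e :
      2869784576 / 625 * t ^ 6 + 13241412608 / 625 * s * t ^ 5 +
      24642678784 / 625 * s ^ 2 * t ^ 4 + 4707661952 / 125 * s ^ 3 * t ^ 3 +
      12127000496 / 625 * s ^ 4 * t ^ 2 + 3221541996 / 625 * s ^ 5 * t +
      72360486 / 125 * s ^ 6 =
      (4 - x ^ 2) *
      (8 - (2 * (7 / 100) + 3 * (31 / 50) * x) * (9 - 8 * x) -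
      8 * x * ((7 / 100) + (31 / 50) * x)) -
      x ^ 3 * ((7 / 100) + (31 / 50) * x) ^ 2 * (9 - 8 * x) := by
    rw [hs, ht]
    ring
  rw [e] at h
  linarith

theorem cre_h_p_3 (x : ℝ) (h1 : 13 / 16 ≤ x) (h2 : x ≤ 7 / 8) :
    x ^ 3 * ((7 / 100) + (31 / 50) * x) ^ 2 * (9 - 8 * x) ≤
      (4 - x ^ 2) *
      (8 - (2 * (7 / 100) + 3 * (31 / 50) * x) * (9 - 8 * x) -
      8 * x * ((7 / 100) + (31 / 50) * x)) := by
  obtain ⟨s, hs⟩ : ∃ s, s = x - 13 / 16 := ⟨_, rfl⟩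
  obtain ⟨t, ht⟩ : ∃ t, t = 7 / 8 - x := ⟨_, rfl⟩
  have hs0 : 0 ≤ s := by linarith
  have ht0 : 0 ≤ t := by linarith
  have h : 0 ≤
      72360486 / 125 * t ^ 6 + 1120087164 / 625 * s * t ^ 5 +
      1619726336 / 625 * s ^ 2 * t ^ 4 + 2504403168 / 625 * s ^ 3 * t ^ 3 +
      3570055648 / 625 * s ^ 4 * t ^ 2 + 535261632 / 125 * s ^ 5 * t + 5993728 / 5 * s ^ 6 := by
    positivity
  have e :
      72360486 / 125 * t ^ 6 + 1120087164 / 625 * s * t ^ 5 +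
      1619726336 / 625 * s ^ 2 * t ^ 4 + 2504403168 / 625 * s ^ 3 * t ^ 3 +
      3570055648 / 625 * s ^ 4 * t ^ 2 + 535261632 / 125 * s ^ 5 * t + 5993728 / 5 * s ^ 6 =
      (4 - x ^ 2) *
      (8 - (2 * (7 / 100) + 3 * (31 / 50) * x) * (9 - 8 * x) -
      8 * x * ((7 / 100) + (31 / 50) * x)) -
      x ^ 3 * ((7 / 100) + (31 / 50) * x) ^ 2 * (9 - 8 * x) := by
    rw [hs, ht]
    ring
  rw [e] at h
  linarith

theorem cre_h_p_4 (x : ℝ) (h1 : 7 / 8 ≤ x) (h2 : x ≤ 1) :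
    x ^ 3 * ((7 / 100) + (31 / 50) * x) ^ 2 * (9 - 8 * x) ≤
      (4 - x ^ 2) *
      (8 - (2 * (7 / 100) + 3 * (31 / 50) * x) * (9 - 8 * x) -
      8 * x * ((7 / 100) + (31 / 50) * x)) := by
  obtain ⟨s, hs⟩ : ∃ s, s = x - 7 / 8 := ⟨_, rfl⟩
  obtain ⟨t, ht⟩ : ∃ t, t = 1 - x := ⟨_, rfl⟩
  have hs0 : 0 ≤ s := by linarith
  have ht0 : 0 ≤ t := by linarith
  have h : 0 ≤
      93652 / 5 * t ^ 6 + 25416474 / 125 * s * t ^ 5 + 548986528 / 625 * s ^ 2 * t ^ 4 +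
      231776928 / 125 * s ^ 3 * t ^ 3 + 1278463232 / 625 * s ^ 4 * t ^ 2 +
      711112704 / 625 * s ^ 5 * t + 157925376 / 625 * s ^ 6 := by
    positivity
  have e :
      93652 / 5 * t ^ 6 + 25416474 / 125 * s * t ^ 5 + 548986528 / 625 * s ^ 2 * t ^ 4 +
      231776928 / 125 * s ^ 3 * t ^ 3 + 1278463232 / 625 * s ^ 4 * t ^ 2 +
      711112704 / 625 * s ^ 5 * t + 157925376 / 625 * s ^ 6 =
      (4 - x ^ 2) *
      (8 - (2 * (7 / 100) + 3 * (31 / 50) * x) * (9 - 8 * x) -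
      8 * x * ((7 / 100) + (31 / 50) * x)) -
      x ^ 3 * ((7 / 100) + (31 / 50) * x) ^ 2 * (9 - 8 * x) := by
    rw [hs, ht]
    ring
  rw [e] at h
  linarith

theorem cre_h_q_0 (x : ℝ) (h1 : 0 ≤ x) (h2 : x ≤ 1 / 2) :
    0 ≤
      (8 - (2 * (7 / 100) + 3 * (31 / 50) * x) * (9 - 8 * x) -
      8 * x * ((7 / 100) + (31 / 50) * x)) := by
  obtain ⟨s, hs⟩ : ∃ s, s = x - 0 := ⟨_, rfl⟩
  obtain ⟨t, ht⟩ : ∃ t, t = 1 / 2 - x := ⟨_, rfl⟩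
  have hs0 : 0 ≤ s := by linarith
  have ht0 : 0 ≤ t := by linarith
  have h : 0 ≤
      674 / 25 * t ^ 2 + 539 / 25 * s * t + 113 / 25 * s ^ 2 := by
    positivity
  have e :
      674 / 25 * t ^ 2 + 539 / 25 * s * t + 113 / 25 * s ^ 2 =
      (8 - (2 * (7 / 100) + 3 * (31 / 50) * x) * (9 - 8 * x) -
      8 * x * ((7 / 100) + (31 / 50) * x)) -
      0 := by
    rw [hs, ht]
    ring
  rw [e] at h
  linarith

theorem cre_h_q_1 (x : ℝ) (h1 : 1 / 2 ≤ x) (h2 : x ≤ 3 / 4) :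
    0 ≤
      (8 - (2 * (7 / 100) + 3 * (31 / 50) * x) * (9 - 8 * x) -
      8 * x * ((7 / 100) + (31 / 50) * x)) := by
  obtain ⟨s, hs⟩ : ∃ s, s = x - 1 / 2 := ⟨_, rfl⟩
  obtain ⟨t, ht⟩ : ∃ t, t = 3 / 4 - x := ⟨_, rfl⟩
  have hs0 : 0 ≤ s := by linarith
  have ht0 : 0 ≤ t := by linarith
  have h : 0 ≤
      452 / 25 * t ^ 2 + 278 / 25 * s * t + 74 / 25 * s ^ 2 := by
    positivity
  have e :
      452 / 25 * t ^ 2 + 278 / 25 * s * t + 74 / 25 * s ^ 2 =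
      (8 - (2 * (7 / 100) + 3 * (31 / 50) * x) * (9 - 8 * x) -
      8 * x * ((7 / 100) + (31 / 50) * x)) -
      0 := by
    rw [hs, ht]
    ring
  rw [e] at h
  linarith

theorem cre_h_q_2 (x : ℝ) (h1 : 3 / 4 ≤ x) (h2 : x ≤ 1) :
    0 ≤
      (8 - (2 * (7 / 100) + 3 * (31 / 50) * x) * (9 - 8 * x) -
      8 * x * ((7 / 100) + (31 / 50) * x)) := by
  obtain ⟨s, hs⟩ : ∃ s, s = x - 3 / 4 := ⟨_, rfl⟩
  obtain ⟨t, ht⟩ : ∃ t, t = 1 - x := ⟨_, rfl⟩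
  have hs0 : 0 ≤ s := by linarith
  have ht0 : 0 ≤ t := by linarith
  have h : 0 ≤
      74 / 25 * t ^ 2 + 18 / 25 * s * t + 192 / 25 * s ^ 2 := by
    positivity
  have e :
      74 / 25 * t ^ 2 + 18 / 25 * s * t + 192 / 25 * s ^ 2 =
      (8 - (2 * (7 / 100) + 3 * (31 / 50) * x) * (9 - 8 * x) -
      8 * x * ((7 / 100) + (31 / 50) * x)) -
      0 := by
    rw [hs, ht]
    ring
  rw [e] at h
  linarith

/-- the pair `(4, 31 / 20)` -/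
theorem cre_h : Cre (4) (31 / 20) := by
  refine Cre.of (a := (7 / 100)) (b := (31 / 50)) (by norm_num) ?_ (by norm_num) ?_
  · intro x h0 h1
    rcases le_total x (1 / 2) with h2 | h2
    · exact cre_h_p_0 x (by linarith) h2
    rcases le_total x (3 / 4) with h2 | h2
    · exact cre_h_p_1 x (by linarith) h2
    rcases le_total x (13 / 16) with h2 | h2
    · exact cre_h_p_2 x (by linarith) h2
    rcases le_total x (7 / 8) with h2 | h2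
    · exact cre_h_p_3 x (by linarith) h2
    exact cre_h_p_4 x (by linarith) (by linarith)
  · intro x h0 h1
    rcases le_total x (1 / 2) with h2 | h2
    · exact cre_h_q_0 x (by linarith) h2
    rcases le_total x (3 / 4) with h2 | h2
    · exact cre_h_q_1 x (by linarith) h2
    exact cre_h_q_2 x (by linarith) (by linarith)

end Pool.Agent.TDW
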